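import Mathlib
import Pool.Agent.Helper800.FreeLip

set_option autoImplicit false

namespace Pool.Agent.Results.MP_f94ac9_gt.Paracompact

open Set Topology Filter Pool.Agent.Helper800.FreeLip

universe u

/-- `L` is a topological linear space over the discrete reals: a real vector space with a Hausdorff
topology for which addition is (jointly) continuous and multiplication by each fixed real is
continuous. -/
structure IsTLS (L : Type u) [AddCommGroup L] [Module ℝ L] [TopologicalSpace L] : Prop where
  t2 : T2Space L
  add : Continuous fun p : L × L => p.1 + p.2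
  smul : ∀ r : ℝ, Continuous fun v : L => r • v

/-- `i : X → L` makes `L` the free topological linear space over the discrete reals on `X`: `L` is a
topological linear space, `i` is a topological embedding whose image is a Hamel basis, and every
continuous map from `X` to a topological linear space extends uniquely to a continuous linear map. -/
structure IsFree (X L : Type u) [TopologicalSpace X] [AddCommGroup L] [Module ℝ L]
    [TopologicalSpace L] (i : X → L) : Prop where
  tls : IsTLS L
  emb : IsEmbedding i
  indep : LinearIndependent ℝ i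
  span : Submodule.span ℝ (range i) = ⊤
  univ : ∀ (E : Type u) [AddCommGroup E] [Module ℝ E] [TopologicalSpace E], IsTLS E →
    ∀ f : X → E, Continuous f → ∃! F : L →ₗ[ℝ] E, Continuous F ∧ ∀ x, F (i x) = f x

theorem IsTLS.group {L : Type u} [AddCommGroup L] [Module ℝ L] [TopologicalSpace L] (h : IsTLS L) :
    IsTopologicalAddGroup L where
  continuous_add := h.add
  continuous_neg := by
    have := h.smul (-1)
    simpa only [neg_one_smul] using this

/-! ### Paracompactness -/

section para

variable {X L : Type u} [TopologicalSpace X] [AddCommGroup L] [Module ℝ L] [tL : TopologicalSpace L]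
  {i : X → L}

theorem para [TopologicalSpace.MetrizableSpace X] (hfree : IsFree X L i) : ParacompactSpace L := by
  classical
  obtain ⟨H, ⟨bH⟩⟩ : ∃ H : Type, Nonempty (Module.Basis H ℚ ℝ) :=
    ⟨_, ⟨Module.Basis.ofVectorSpace ℚ ℝ⟩⟩
  let _ : TopologicalSpace H := ⊥
  have _ : DiscreteTopology H := ⟨rfl⟩
  let _ : MetricSpace (H × X) := TopologicalSpace.metrizableSpaceMetric (H × X)
  let _ : Module ℚ L := Module.compHom L (algebraMap ℚ ℝ)
  have _ : IsScalarTower ℚ ℝ L := IsScalarTower.of_algebraMap_smul fun r x => rfl
  let bX : Module.Basis X ℝ L := Module.Basis.mk hfree.indep hfree.span.ge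
  have hbX : ∀ x, bX x = i x := fun x => Module.Basis.mk_apply _ _ _
  let b : Module.Basis (H × X) ℚ L := bH.smulTower bX
  have hb : ∀ h x, b (h, x) = bH h • i x := fun h x => by
    rw [← hbX x]
    exact Module.Basis.smulTower_apply _ _ _
  have _ := hfree.tls.t2
  have _ := hfree.tls.group
  have hreg : RegularSpace L := inferInstance
  -- continuity of the sum maps
  have hbc : Continuous (fun z : H × X => b z) := by
    rw [continuous_prod_of_discrete_left]
    intro h
    simp only [hb]
    exact (hfree.tls.smul (bH h)).comp hfree.emb.continuous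
  have hs : ∀ (n : ℕ) (q : Fin n → ℚ), Continuous fun z : Fin n → H × X => ∑ k, q k • b (z k) := by
    intro n q
    refine continuous_finsetSum _ fun k _ => ?_
    exact (hfree.tls.smul (q k : ℝ)).comp (hbc.comp (continuous_apply k))
  -- the auxiliary topology
  let φ : ℝ → L →+ EE (H × X) := fun r => (ppi b).comp (DistribSMul.toAddMonoidHom L r)
  have hφ : ∀ r v, φ r v = ppi b (r • v) := fun _ _ => rfl
  let t1 : TopologicalSpace L := ⨅ r : ℝ, TopologicalSpace.induced (φ r) inferInstance
  have hc1 : ∀ r, @Continuous L (EE (H × X)) t1 _ (φ r) := fun r =>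
    continuous_iInf_dom continuous_induced_dom
  have htls : @IsTLS L _ _ t1 := by
    refine @IsTLS.mk L _ _ t1 ?_ ?_ ?_
    · refine @T2Space.of_injective_continuous L (EE (H × X)) t1 _ _ (φ 1) ?_ (hc1 1)
      intro v w h
      rw [hφ, hφ, one_smul, one_smul] at h
      exact ppi_injective b h
    · have : @IsTopologicalAddGroup L t1 _ :=
        topologicalAddGroup_iInf fun r => topologicalAddGroup_induced (φ r)
      exact @continuous_add L t1 _ _
    · intro s
      refine continuous_iInf_rng.2 fun r => continuous_induced_rng.2 ?_
      have : (φ r ∘ fun v : L => s • v) = φ (r * s) := by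
        ext1 v
        show ppi b (r • s • v) = ppi b ((r * s) • v)
        rw [mul_smul]
      rw [this]
      exact hc1 _
  have hi1 : @Continuous X L _ t1 i := by
    refine continuous_iInf_rng.2 fun r => continuous_induced_rng.2 ?_
    have : (φ r ∘ i) = fun x => ∑ h ∈ (bH.repr r).support, ((bH.repr r h : ℚ) : ℝ) • ev (h, x) := by
      ext1 x
      show ppi b (r • i x) = _
      conv_lhs => rw [← bH.linearCombination_repr r, Finsupp.linearCombination_apply, Finsupp.sum,
        Finset.sum_smul, map_sum]
      refine Finset.sum_congr rfl fun h _ => ?_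
      rw [smul_assoc, ← hb, ppi_basis]
    rw [this]
    refine continuous_finsetSum _ fun h _ => ?_
    have he : Continuous fun p : H × X => ev p := continuous_ev
    have hr : Continuous fun x : X => (h, x) := Continuous.prodMk_right h
    exact Continuous.const_smul (M := ℝ) (he.comp hr) (((bH.repr r) h : ℚ) : ℝ)
  obtain ⟨F, ⟨hF1, hF2⟩, -⟩ := @IsFree.univ X L _ _ _ tL i hfree L _ _ t1 htls i hi1
  have hFid : ∀ v, F v = v := by
    intro v
    have : F = LinearMap.id := by
      apply bX.ext
      intro x
      rw [hbX]
      exact hF2 x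
    rw [this]
    rfl
  have hle1 : tL ≤ t1 := by
    rw [← continuous_id_iff_le]
    have : (F : L → L) = id := funext hFid
    rw [this] at hF1
    exact hF1
  have hle : tL ≤ top0 b := by
    refine hle1.trans ((iInf_le _ 1).trans ?_)
    have : (φ 1 : L → EE (H × X)) = ppi b := by
      ext1 v
      show ppi b ((1 : ℝ) • v) = _
      rw [one_smul]
    rw [this]
  exact paracompact b tL hreg hs hle

end para

/-! ### Existence of the free object on a metrizable space -/

section existence

theorem min_le_dist_ev {X : Type u} [MetricSpace X] (x y : X) :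
    min 1 (dist y x) ≤ dist (ev y) (ev x) := by
  have h1 := BoundedContinuousFunction.dist_coe_le_dist (f := ev y) (g := ev x)
    (bump x 1 zero_le_one le_rfl)
  rw [ev_apply, ev_apply, bump_self] at h1
  refine le_trans ?_ h1
  show min 1 (dist y x) ≤ dist (max 0 (1 - dist y x)) 1
  rw [Real.dist_eq]
  rcases le_total 1 (dist y x) with h | h
  · rw [min_eq_left h, max_eq_left (by linarith)]
    norm_num
  · rw [min_eq_right h, max_eq_right (by linarith)]
    rw [sub_sub_cancel_left, abs_neg, abs_of_nonneg dist_nonneg]

theorem ev_embedding {X : Type u} [MetricSpace X] : IsEmbedding (ev : X → EE X) := by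
  have hind : IsInducing (ev : X → EE X) := by
    rw [isInducing_iff_nhds]
    intro x
    refine le_antisymm (continuous_ev.tendsto x).le_comap ?_
    rw [(Metric.nhds_basis_ball (x := x)).ge_iff]
    intro ε hε
    rw [mem_comap]
    refine ⟨Metric.ball (ev x) (min ε 1), Metric.ball_mem_nhds _ (lt_min hε one_pos), ?_⟩
    intro y hy
    rw [mem_preimage, Metric.mem_ball] at hy
    rw [Metric.mem_ball]
    have h1 := (min_le_dist_ev x y).trans_lt hy
    rcases le_total 1 (dist y x) with h | h
    · rw [min_eq_left h] at h1
      exact absurd (h1.trans_le (min_le_right _ _)) (lt_irrefl _)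
    · rw [min_eq_right h] at h1
      exact h1.trans_le (min_le_left _ _)
  exact ⟨hind, hind.injective⟩

/-- The vector space topologies on the real vector space with basis `X` for which the inclusion of `X`
is continuous. -/
def TT (X : Type u) [TopologicalSpace X] : Set (TopologicalSpace (X →₀ ℝ)) :=
  {t | @IsTopologicalAddGroup (X →₀ ℝ) t _ ∧ (∀ r : ℝ, @Continuous _ _ t t (fun v : X →₀ ℝ => r • v)) ∧
    @Continuous _ _ _ t (fun x : X => (Finsupp.single x 1 : X →₀ ℝ))}

theorem induced_mem {X : Type u} [TopologicalSpace X] (E : Type u) [AddCommGroup E] [Module ℝ E]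
    [TopologicalSpace E] [IsTopologicalAddGroup E] (hE : ∀ r : ℝ, Continuous fun v : E => r • v)
    (F : (X →₀ ℝ) →ₗ[ℝ] E) (hF : Continuous fun x => F (Finsupp.single x 1)) :
    TopologicalSpace.induced F inferInstance ∈ TT X := by
  refine ⟨topologicalAddGroup_induced F, fun r => continuous_induced_rng.2 ?_,
    continuous_induced_rng.2 hF⟩
  have : (F ∘ fun v : X →₀ ℝ => r • v) = (fun w : E => r • w) ∘ F := by
    ext1 v
    show F (r • v) = r • F v
    rw [map_smul]
  rw [this]
  exact @Continuous.comp (X →₀ ℝ) E E (TopologicalSpace.induced F inferInstance) _ _ F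
    (fun w => r • w) (hE r) continuous_induced_dom

theorem exists_free (X : Type u) [TopologicalSpace X] [TopologicalSpace.MetrizableSpace X] :
    ∃ (L : Type u) (_ : AddCommGroup L) (_ : Module ℝ L) (_ : TopologicalSpace L) (i : X → L),
      IsFree X L i := by
  classical
  let _ : MetricSpace X := TopologicalSpace.metrizableSpaceMetric X
  let i : X → (X →₀ ℝ) := fun x => Finsupp.single x 1
  have hlin : ∀ (E : Type u) [AddCommGroup E] [Module ℝ E] [TopologicalSpace E]
      [IsTopologicalAddGroup E] (_ : ∀ r : ℝ, Continuous fun v : E => r • v)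
      (F : (X →₀ ℝ) →ₗ[ℝ] E), (Continuous fun x => F (Finsupp.single x 1)) →
        @Continuous _ _ (sInf (TT X)) _ F := by
    intro E _ _ _ _ hE F hF
    exact continuous_sInf_dom (induced_mem E hE F hF) continuous_induced_dom
  have hPi : (fun x => (Phi : (X →₀ ℝ) →ₗ[ℝ] EE X) (Finsupp.single x 1)) = ev := by
    ext1 x
    unfold Phi
    rw [Finsupp.linearCombination_single, one_smul]
  have hPc : @Continuous _ _ (sInf (TT X)) _ (Phi : (X →₀ ℝ) →ₗ[ℝ] EE X) := by
    refine hlin (EE X) (fun r => continuous_const_smul r) Phi ?_
    rw [hPi]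
    exact continuous_ev
  let t : TopologicalSpace (X →₀ ℝ) := sInf (TT X)
  have hgrp : IsTopologicalAddGroup (X →₀ ℝ) := topologicalAddGroup_sInf fun t ht => ht.1
  have hsmul : ∀ r : ℝ, Continuous (fun v : X →₀ ℝ => r • v) := fun r =>
    continuous_sInf_rng.2 fun s hs => continuous_sInf_dom hs (hs.2.1 r)
  have hi : Continuous i := continuous_sInf_rng.2 fun s hs => hs.2.2
  refine ⟨X →₀ ℝ, inferInstance, inferInstance, t, i, ⟨⟨?_, continuous_add, hsmul⟩, ?_, ?_, ?_, ?_⟩⟩
  · exact T2Space.of_injective_continuous Phi_injective hPc
  · refine IsEmbedding.of_comp hi hPc ?_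
    have : ((Phi : (X →₀ ℝ) →ₗ[ℝ] EE X) ∘ i) = ev := hPi
    rw [this]
    exact ev_embedding
  · have := (Finsupp.basisSingleOne (R := ℝ) (ι := X)).linearIndependent
    rwa [Finsupp.coe_basisSingleOne] at this
  · have := (Finsupp.basisSingleOne (R := ℝ) (ι := X)).span_eq
    rwa [Finsupp.coe_basisSingleOne] at this
  · intro E _ _ _ hE f hf
    have _ := hE.group
    refine ⟨Finsupp.linearCombination ℝ f, ⟨?_, ?_⟩, ?_⟩
    · refine hlin E hE.smul _ ?_
      have : (fun x => Finsupp.linearCombination ℝ f (Finsupp.single x 1)) = f := by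
        ext1 x
        rw [Finsupp.linearCombination_single, one_smul]
      rw [this]
      exact hf
    · intro x
      show Finsupp.linearCombination ℝ f (Finsupp.single x 1) = f x
      rw [Finsupp.linearCombination_single, one_smul]
    · rintro G ⟨-, hG⟩
      apply Finsupp.basisSingleOne.ext
      intro x
      rw [Finsupp.coe_basisSingleOne, Finsupp.linearCombination_single, one_smul]
      exact hG x

end existence

/-- For every metrizable space `X` the free topological linear space over the discrete reals on `X`
exists and it is paracompact (and Hausdorff). -/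
theorem result (X : Type u) [TopologicalSpace X] [TopologicalSpace.MetrizableSpace X] :
    (∃ (L : Type u) (_ : AddCommGroup L) (_ : Module ℝ L) (_ : TopologicalSpace L) (i : X → L),
      IsFree X L i) ∧
    ∀ (L : Type u) [AddCommGroup L] [Module ℝ L] [TopologicalSpace L] (i : X → L),
      IsFree X L i → T2Space L ∧ ParacompactSpace L :=
  ⟨exists_free X, fun _ _ _ _ _ h => ⟨h.tls.t2, para h⟩⟩

end Pool.Agent.Results.MP_f94ac9_gt.Paracompact
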